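import Pool.Agent.W307.LS.Stm2
import Pool.Agent.W654.SHB.Rkk

/-!
# Project LS, part PAR
-/

set_option autoImplicit false

namespace Pool.Agent.W140.LS

open WeierstrassCurve Pool.Agent.W262.SH Pool.Agent.W307.LS

open scoped Classical

theorem geo {F : Type} [Field F] [DecidableEq F] (W : WeierstrassCurve.Affine F)
    (Q : W.Point) (hQ2 : Q + Q ≠ 0) (hQ4 : (Q + Q) + (Q + Q) = 0) :
    ∃ (x y : F) (hQ : W.Nonsingular x y) (r s : F) (hT : W.Nonsingular r s),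
      Q = Affine.Point.some x y hQ ∧ Q + Q = Affine.Point.some r s hT ∧
      4 * r ^ 3 + (W.a₁ ^ 2 + 4 * W.a₂) * r ^ 2 + 2 * (2 * W.a₄ + W.a₁ * W.a₃) * r +
        (W.a₃ ^ 2 + 4 * W.a₆) = 0 ∧
      2 * (x - r) ^ 2 = 6 * r ^ 2 + (W.a₁ ^ 2 + 4 * W.a₂) * r + (2 * W.a₄ + W.a₁ * W.a₃) := by
  rcases hq : Q with _ | ⟨x, y, h⟩
  · exact absurd (by rw [hq]; exact add_zero _) hQ2
  · have hy : y ≠ W.negY x y := by
      intro he
      apply hQ2
      rw [hq]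
      exact Affine.Point.add_of_Y_eq rfl he
    have hsum := Affine.Point.add_self_of_Y_ne (h₁ := h) hy
    have hη : 2 * y + W.a₁ * x + W.a₃ ≠ 0 := by
      intro h0
      apply hy
      rw [Affine.negY]
      linear_combination h0
    have hT := Affine.nonsingular_add h h (fun hxy => hy hxy.right)
    have hTT : ∀ (r s : F) (hT : W.Nonsingular r s), Q + Q = Affine.Point.some r s hT →
        2 * s + W.a₁ * r + W.a₃ = 0 := by
      intro r s hT he
      by_contra hne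
      have hy' : s ≠ W.negY r s := by
        intro h1
        apply hne
        rw [Affine.negY] at h1
        linear_combination h1
      rw [he, Affine.Point.add_self_of_Y_ne hy'] at hQ4
      exact Affine.Point.some_ne_zero _ hQ4
    have hsum0 := hsum
    rw [← hq] at hsum
    refine ⟨x, y, h, _, _, hT, rfl, hsum0, ?_, ?_⟩
    · have h1 := hTT _ _ hT hsum
      have h2 := (Affine.equation_iff _ _).1 hT.1
      generalize W.addX x x (W.slope x x y y) = r at h1 h2 ⊢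
      generalize W.addY x x y (W.slope x x y y) = s at h1 h2
      linear_combination (2 * s + W.a₁ * r + W.a₃) * h1 - 4 * h2
    · have h1 := hTT _ _ hT hsum
      have h2 := (Affine.equation_iff _ _).1 hT.1
      have h3 := (Affine.equation_iff _ _).1 h.1
      have hsl : W.slope x x y y * (2 * y + W.a₁ * x + W.a₃) =
          3 * x ^ 2 + 2 * W.a₂ * x + W.a₄ - W.a₁ * y := by
        have hne : y - W.negY x y ≠ 0 := sub_ne_zero.2 hy
        rw [Affine.slope_of_Y_ne rfl hy]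
        have e1 : y - W.negY x y = 2 * y + W.a₁ * x + W.a₃ := by
          rw [Affine.negY]; ring
        rw [e1, div_mul_cancel₀ _ hη]
      have hx : W.addX x x (W.slope x x y y) =
          (W.slope x x y y) ^ 2 + W.a₁ * W.slope x x y y - W.a₂ - x - x := rfl
      generalize W.addY x x y (W.slope x x y y) = s at h1 h2
      generalize W.addX x x (W.slope x x y y) = r at h1 h2 hx ⊢
      generalize W.slope x x y y = l at hsl hx
      set η := 2 * y + W.a₁ * x + W.a₃ with hηd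
      have hf : η ^ 2 = 4 * x ^ 3 + (W.a₁ ^ 2 + 4 * W.a₂) * x ^ 2 +
          2 * (2 * W.a₄ + W.a₁ * W.a₃) * x + (W.a₃ ^ 2 + 4 * W.a₆) := by
        rw [hηd]
        linear_combination 4 * h3
      have hr : 4 * r ^ 3 + (W.a₁ ^ 2 + 4 * W.a₂) * r ^ 2 +
          2 * (2 * W.a₄ + W.a₁ * W.a₃) * r + (W.a₃ ^ 2 + 4 * W.a₆) = 0 := by
        linear_combination (2 * s + W.a₁ * r + W.a₃) * h1 - 4 * h2
      have h2N : 2 * (l * η) = 6 * x ^ 2 + (W.a₁ ^ 2 + 4 * W.a₂) * x +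
          (2 * W.a₄ + W.a₁ * W.a₃) - W.a₁ * η := by
        rw [hsl, hηd]
        ring
      have hK : (6 * x ^ 2 + (W.a₁ ^ 2 + 4 * W.a₂) * x + (2 * W.a₄ + W.a₁ * W.a₃)) ^ 2 =
          (4 * r + (W.a₁ ^ 2 + 4 * W.a₂) + 8 * x) * η ^ 2 := by
        have e2 : 6 * x ^ 2 + (W.a₁ ^ 2 + 4 * W.a₂) * x + (2 * W.a₄ + W.a₁ * W.a₃) =
            2 * (l * η) + W.a₁ * η := by rw [h2N]; ring
        rw [e2]
        linear_combination (-4 * η ^ 2) * hx
      have hsq : (2 * (x - r) ^ 2 - (6 * r ^ 2 + (W.a₁ ^ 2 + 4 * W.a₂) * r +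
          (2 * W.a₄ + W.a₁ * W.a₃))) ^ 2 = 0 := by
        linear_combination hK + (4 * r + (W.a₁ ^ 2 + 4 * W.a₂) + 8 * x) * (hf + hr)
      exact sub_eq_zero.1 (pow_eq_zero_iff (two_ne_zero) |>.1 hsq)

theorem nt (a₀ b₀ : ℚ) (ha : a₀ ≠ 0) (hb : b₀ ≠ 0) : ∃ (a b : ℤ) (v : ℚ), v ≠ 0 ∧
    v ^ 2 * a₀ = a ∧ v ^ 2 * b₀ = b ∧ Squarefree (Int.gcd a b) := by
  have had : (a₀.den : ℚ) ≠ 0 := by exact_mod_cast a₀.den_nz
  have hbd : (b₀.den : ℚ) ≠ 0 := by exact_mod_cast b₀.den_nz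
  have ha' : a₀ * a₀.den = a₀.num := Rat.mul_den_eq_num a₀
  have hb' : b₀ * b₀.den = b₀.num := Rat.mul_den_eq_num b₀
  obtain ⟨A, hA⟩ : ∃ A : ℤ, A = a₀.num * a₀.den * b₀.den ^ 2 := ⟨_, rfl⟩
  obtain ⟨B, hB⟩ : ∃ B : ℤ, B = b₀.num * b₀.den * a₀.den ^ 2 := ⟨_, rfl⟩
  have hAq : (A : ℚ) = ((a₀.den : ℚ) * b₀.den) ^ 2 * a₀ := by
    rw [hA]; push_cast; rw [← ha']; ring
  have hBq : (B : ℚ) = ((a₀.den : ℚ) * b₀.den) ^ 2 * b₀ := by
    rw [hB]; push_cast; rw [← hb']; ring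
  have hA0 : A ≠ 0 := by
    intro h
    rw [h] at hAq
    have : ((a₀.den : ℚ) * b₀.den) ^ 2 * a₀ ≠ 0 := by positivity
    exact this (by rw [← hAq]; simp)
  obtain ⟨s, k, hk, hs⟩ := Nat.sq_mul_squarefree (Int.gcd A B)
  have hg0 : Int.gcd A B ≠ 0 := by
    intro h
    exact hA0 (Int.gcd_eq_zero_iff.1 h).1
  have hk0 : k ≠ 0 := by
    rintro rfl
    apply hg0
    rw [← hk]; simp
  have hkA : ((k : ℤ) ^ 2) ∣ A := by
    have h1 : ((Int.gcd A B : ℕ) : ℤ) ∣ A := Int.gcd_dvd_left _ _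
    refine dvd_trans ?_ h1
    rw [← hk]
    push_cast
    exact Dvd.intro _ rfl
  have hkB : ((k : ℤ) ^ 2) ∣ B := by
    have h1 : ((Int.gcd A B : ℕ) : ℤ) ∣ B := Int.gcd_dvd_right _ _
    refine dvd_trans ?_ h1
    rw [← hk]
    push_cast
    exact Dvd.intro _ rfl
  obtain ⟨a, ha2⟩ := hkA
  obtain ⟨b, hb2⟩ := hkB
  have hgcd : Int.gcd a b = s := by
    have h1 : Int.gcd A B = k ^ 2 * Int.gcd a b := by
      rw [ha2, hb2, Int.gcd_mul_left, Int.natAbs_pow, Int.natAbs_natCast]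
    rw [← hk] at h1
    exact (Nat.eq_of_mul_eq_mul_left (by positivity) h1).symm
  have hkq : (k : ℚ) ≠ 0 := by exact_mod_cast hk0
  refine ⟨a, b, (a₀.den : ℚ) * b₀.den / k, by positivity, ?_, ?_, by rw [hgcd]; exact hs⟩
  · have h1 : (A : ℚ) = (k : ℚ) ^ 2 * a := by rw [ha2]; push_cast; ring
    rw [div_pow, div_mul_eq_mul_div, ← hAq, h1]
    field_simp
  · have h1 : (B : ℚ) = (k : ℚ) ^ 2 * b := by rw [hb2]; push_cast; ring
    rw [div_pow, div_mul_eq_mul_div, ← hBq, h1]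
    field_simp

theorem descQ (z : QB) (h : ∀ σ : QB ≃ₐ[ℚ] QB, σ z = z) : ∃ q : ℚ, algebraMap ℚ QB q = z := by
  have := Pool.Agent.W654.SHB.galQB
  exact (InfiniteGalois.mem_range_algebraMap_iff_fixed z).2 h

theorem act_some (W : WeierstrassCurve ℚ) (σ : QB ≃ₐ[ℚ] QB) (x y : QB)
    (h : (W.baseChange QB).toAffine.Nonsingular x y) :
    ∃ h', act W σ.toAlgHom (Affine.Point.some x y h) = Affine.Point.some (σ x) (σ y) h' :=
  ⟨(W.toAffine.baseChange_nonsingular σ.toAlgHom.injective x y).2 h, rfl⟩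

theorem par : PAR := by
  intro W hΔ ⟨Q, hQ2, hQ4, hσ⟩
  obtain ⟨x, y, hQ, r, s, hT, eQ, eT, e1, e2⟩ := geo _ Q hQ2 hQ4
  have hneg : -(Q + Q) = Q + Q := neg_eq_of_add_eq_zero_left hQ4
  have hxσ : ∀ σ : QB ≃ₐ[ℚ] QB, σ x = x := by
    intro σ
    obtain ⟨h', e'⟩ := act_some W σ x y hQ
    rcases hσ σ with h | h
    · rw [eQ, e', Affine.Point.some.injEq] at h
      exact h.1
    · rw [eQ, e', Affine.Point.neg_some, Affine.Point.some.injEq] at h
      exact h.1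
  have hrσ : ∀ σ : QB ≃ₐ[ℚ] QB, σ r = r := by
    intro σ
    obtain ⟨h', e'⟩ := act_some W σ r s hT
    have h3 : act W σ.toAlgHom (Q + Q) = Q + Q := by
      rw [map_add]
      rcases hσ σ with h | h
      · rw [h]
      · rw [h, ← neg_add, hneg]
    rw [eT, e', Affine.Point.some.injEq] at h3
    exact h3.1
  obtain ⟨x₀, hx₀⟩ := descQ x hxσ
  obtain ⟨r₀, hr₀⟩ := descQ r hrσ
  have hinj : Function.Injective (algebraMap ℚ QB) := (algebraMap ℚ QB).injective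
  have m1 : (W.baseChange QB).toAffine.a₁ = algebraMap ℚ QB W.a₁ := rfl
  have m2 : (W.baseChange QB).toAffine.a₂ = algebraMap ℚ QB W.a₂ := rfl
  have m3 : (W.baseChange QB).toAffine.a₃ = algebraMap ℚ QB W.a₃ := rfl
  have m4 : (W.baseChange QB).toAffine.a₄ = algebraMap ℚ QB W.a₄ := rfl
  have m6 : (W.baseChange QB).toAffine.a₆ = algebraMap ℚ QB W.a₆ := rfl
  rw [m1, m2, m3, m4, m6, ← hr₀] at e1
  rw [m1, m2, m3, m4, ← hr₀, ← hx₀] at e2
  have f1 : 4 * r₀ ^ 3 + (W.a₁ ^ 2 + 4 * W.a₂) * r₀ ^ 2 + 2 * (2 * W.a₄ + W.a₁ * W.a₃) * r₀ +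
        (W.a₃ ^ 2 + 4 * W.a₆) = 0 := by
    apply hinj
    simp only [map_add, map_mul, map_pow, map_ofNat, map_zero]
    exact e1
  have f2 : 2 * (x₀ - r₀) ^ 2 = 6 * r₀ ^ 2 + (W.a₁ ^ 2 + 4 * W.a₂) * r₀ +
      (2 * W.a₄ + W.a₁ * W.a₃) := by
    apply hinj
    simp only [map_add, map_sub, map_mul, map_pow, map_ofNat]
    exact e2
  obtain ⟨c, hc⟩ : ∃ c : ℚ, c = x₀ - r₀ := ⟨_, rfl⟩
  rw [← hc] at f2
  obtain ⟨A, hA⟩ : ∃ A : ℚ, A = 3 * r₀ + (W.a₁ ^ 2 + 4 * W.a₂) / 4 := ⟨_, rfl⟩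
  let C₀ : WeierstrassCurve.VariableChange ℚ := ⟨1, r₀, -W.a₁ / 2, -(W.a₃ + r₀ * W.a₁) / 2⟩
  have hC₀ : C₀ • W = ⟨0, A, 0, c ^ 2, 0⟩ := by
    rw [WeierstrassCurve.variableChange_def]
    ext
    · simp only [C₀, inv_one, Units.val_one]; ring
    · simp only [C₀, inv_one, Units.val_one]; rw [hA]; ring
    · simp only [C₀, inv_one, Units.val_one]; ring
    · simp only [C₀, inv_one, Units.val_one]
      linear_combination (-1 / 2) * f2
    · simp only [C₀, inv_one, Units.val_one]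
      linear_combination (1 / 4) * f1
  have hD : (C₀ • W).Δ ≠ 0 := by
    rw [WeierstrassCurve.variableChange_Δ]
    simp only [C₀, inv_one, Units.val_one, one_pow, one_mul]
    exact hΔ
  have hD2 : (C₀ • W).Δ = 16 * c ^ 4 * ((A - 2 * c) * (A + 2 * c)) := by
    rw [hC₀]
    simp only [WeierstrassCurve.Δ, WeierstrassCurve.b₂, WeierstrassCurve.b₄,
      WeierstrassCurve.b₆, WeierstrassCurve.b₈]
    ring
  rw [hD2] at hD
  have hc0 : c ≠ 0 := by
    rintro rfl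
    exact hD (by ring)
  have hm : A - 2 * c ≠ 0 := by
    intro h
    exact hD (by rw [h]; ring)
  have hp : A + 2 * c ≠ 0 := by
    intro h
    exact hD (by rw [h]; ring)
  obtain ⟨a, b, v, hv, hva, hvb, hsq⟩ := nt ((A + 2 * c) / 4) ((A - 2 * c) / 4)
    (div_ne_zero hp (by norm_num)) (div_ne_zero hm (by norm_num))
  let C₁ : WeierstrassCurve.VariableChange ℚ := ⟨(Units.mk0 v hv)⁻¹, 0, 0, 0⟩
  have hva0 : (a : ℚ) ≠ 0 := by
    rw [← hva]
    exact mul_ne_zero (pow_ne_zero _ hv) (div_ne_zero hp (by norm_num))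
  have hvb0 : (b : ℚ) ≠ 0 := by
    rw [← hvb]
    exact mul_ne_zero (pow_ne_zero _ hv) (div_ne_zero hm (by norm_num))
  refine ⟨a, b, C₁ * C₀, by exact_mod_cast hva0, by exact_mod_cast hvb0, ?_, hsq, ?_⟩
  · intro hab
    have h1 : (a : ℚ) = b := by rw [hab]
    rw [← hva, ← hvb] at h1
    have h2 := mul_left_cancel₀ (pow_ne_zero 2 hv) h1
    apply hc0
    linarith
  · rw [mul_smul, hC₀, WeierstrassCurve.variableChange_def]
    unfold F4
    ext
    · simp only [C₁, inv_inv, Units.val_mk0]; ring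
    · simp only [C₁, inv_inv, Units.val_mk0]
      rw [← hva, ← hvb]; ring
    · simp only [C₁, inv_inv, Units.val_mk0]; ring
    · simp only [C₁, inv_inv, Units.val_mk0]
      rw [← hva, ← hvb]; ring
    · simp only [C₁, inv_inv, Units.val_mk0]; ring

end Pool.Agent.W140.LS
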